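import Pool.Agent.H37R3.Fdf.Defs
import Pool.Agent.H122R2.N6.Bound

/-! Bounds from sums of squares for oriented graphs. -/

set_option autoImplicit false
set_option maxRecDepth 100000
set_option maxHeartbeats 4000000
open Finset

namespace Pool.Agent.H37R3.Fdf
open Pool.Agent.H122R2.N6 (psd nsum nall nsum_eq nall_true or_false_left)

theorem B3_true {f : ℕ → Bool} (h : B3 f = true) {n : ℕ} (hn : n < 3) : f n = true := by
  have h' : (f 0 && (f 1 && f 2)) = true := h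
  rw [Bool.and_eq_true, Bool.and_eq_true] at h'
  interval_cases n
  exacts [h'.1, h'.2.1, h'.2.2]

/-- codes of the pairs of an oriented graph -/
structure Og {V : Type} (A : V → V → ℕ) : Prop where
  lt : ∀ a b, A a b < 3
  rev : ∀ a b, A b a = sw (A a b)

def NoC4 {V : Type} (A : V → V → ℕ) : Prop :=
  ∀ a b c d, c4b (A a b) (A a c) (A b c) (A a d) (A b d) (A c d) = false

section
variable {V : Type} {A : V → V → ℕ}

theorem L3_eq (hA : Og A) (q3 : ℕ → ℕ → ℕ → ℕ) (a b c d e : V) :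
    L3 A q3 a b c d e = leaf3 q3 (A a b) (A a c) (A b c) (A a d) (A b d) (A c d) (A a e) (A b e) (A c e) (A d e) := by
  unfold L3 F3 leaf3
  rw [hA.rev a b, hA.rev a c, hA.rev b c, hA.rev a d, hA.rev b d, hA.rev c d, hA.rev a e, hA.rev b e, hA.rev c e, hA.rev d e]
  rfl

theorem L1_eq (hA : Og A) (q1 : ℕ → ℕ → ℕ) (a b c d e : V) :
    L1 A q1 a b c d e = leaf1 q1 (A a b) (A a c) (A b c) (A a d) (A b d) (A c d) (A a e) (A b e) (A c e) (A d e) := by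
  unfold L1 F1 leaf1
  rw [hA.rev a b, hA.rev a c, hA.rev b c, hA.rev a d, hA.rev b d, hA.rev c d, hA.rev a e, hA.rev b e, hA.rev c e, hA.rev d e]
  rfl

theorem leaf_all (hA : Og A) (hC : NoC4 A) {q3 : ℕ → ℕ → ℕ → ℕ} {q1 : ℕ → ℕ → ℕ} {C : ℕ}
    (hc : ∀ x y : ℕ, x < 3 → y < 3 → chk q3 q1 C x y = true) (a b c d e : V) :
    L3 A q3 a b c d e + L1 A q1 a b c d e ≤ C := by
  have h := hc _ _ (hA.lt a b) (hA.lt a c)
  have h2 := (or_false_left (or_false_left (or_false_left (B3_true (or_false_left (B3_true (B3_true (B3_true (or_false_left (B3_true (B3_true (B3_true (B3_true h (hA.lt b c)) (hA.lt a d)) (hA.lt b d)) (hA.lt c d)) (hC a b c d)) (hA.lt a e)) (hA.lt b e)) (hA.lt c e)) (hC a b c e)) (hA.lt d e)) (hC a b d e)) (hC a c d e)) (hC b c d e))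
  rw [L3_eq hA, L1_eq hA]
  exact Nat.le_of_ble_eq_true h2

theorem c3_lt {x y z : ℕ} (hx : x < 3) (hy : y < 3) (hz : z < 3) : c3 x y z < 27 := by
  show x + (3 * y + 9 * z) < 27
  omega

end

section
variable {V : Type} [Fintype V]

theorem psum5 (F : V → V → V → V → V → ℤ) (g : Fin 5 → Fin 5) (hg : Function.Bijective g) :
    ∑ x : Fin 5 → V, F (x (g 0)) (x (g 1)) (x (g 2)) (x (g 3)) (x (g 4))
      = ∑ x : Fin 5 → V, F (x 0) (x 1) (x 2) (x 3) (x 4) := by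
  have h := Equiv.sum_comp (Equiv.arrowCongr (Equiv.ofBijective g hg).symm (Equiv.refl V))
    (fun x => F (x 0) (x 1) (x 2) (x 3) (x 4))
  rw [← h]
  rfl

def e5 (V : Type) : (Fin 5 → V) ≃ V × V × V × V × V where
  toFun x := (x 0, x 1, x 2, x 3, x 4)
  invFun p := ![p.1, p.2.1, p.2.2.1, p.2.2.2.1, p.2.2.2.2]
  left_inv x := by funext i; fin_cases i <;> rfl
  right_inv p := rfl

theorem conv5 (F : V → V → V → V → V → ℤ) :
    ∑ x : Fin 5 → V, F (x 0) (x 1) (x 2) (x 3) (x 4)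
      = ∑ a, ∑ b, ∑ c, ∑ d, ∑ e, F a b c d e := by
  rw [← Equiv.sum_comp (e5 V).symm]
  simp only [Fintype.sum_prod_type]
  rfl

variable (A : V → V → ℕ)

/-- the number of ordered triples of the counted kind -/
def Sh : ℤ := ∑ a, ∑ b, ∑ c, (hb (c3 (A a b) (A a c) (A b c)) : ℤ)

theorem lower3 (hA : Og A) (K : ℕ) (q3 : ℕ → ℕ → ℕ → ℕ) (l : ℕ → ℕ → ℕ → ℕ) (B O3 T : ℤ)
    (hq3 : ∀ c i j, c < 27 → i < 27 → j < 27 → (q3 c i j : ℤ) =
      ∑ k ∈ range K, (1 : ℤ) * ((l c i k : ℤ) - B) * ((l c j k : ℤ) - B) + (O3 + T * (hb c : ℤ))) :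
    O3 * (Fintype.card V : ℤ) ^ 5 + T * (Fintype.card V : ℤ) ^ 2 * Sh A
      ≤ ∑ x : Fin 5 → V, (F3 A q3 (x 0) (x 1) (x 2) (x 3) (x 4) : ℤ) := by
  rw [conv5 (fun a b c d e => (F3 A q3 a b c d e : ℤ))]
  have e1 : O3 * (Fintype.card V : ℤ) ^ 5 + T * (Fintype.card V : ℤ) ^ 2 * Sh A
      = ∑ a, ∑ b, ∑ c, ∑ d : V, ∑ e : V,
          (O3 + T * (hb (c3 (A a b) (A a c) (A b c)) : ℤ)) := by
    unfold Sh
    simp only [sum_const, card_univ, nsmul_eq_mul, sum_add_distrib, mul_sum]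
    have : ∀ a b c : V, T * (Fintype.card V : ℤ) ^ 2 * (hb (c3 (A a b) (A a c) (A b c)) : ℤ)
        = (Fintype.card V : ℤ) * ((Fintype.card V : ℤ) * (T * (hb (c3 (A a b) (A a c) (A b c)) : ℤ))) :=
      fun a b c => by ring
    simp only [this, mul_add, sum_add_distrib, sum_const, card_univ, nsmul_eq_mul]
    ring
  rw [e1]
  refine sum_le_sum fun a _ => sum_le_sum fun b _ => sum_le_sum fun c _ => ?_
  have e2 : ∀ d e : V, (F3 A q3 a b c d e : ℤ) = _ := fun d e =>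
    hq3 _ _ _ (c3_lt (hA.lt a b) (hA.lt a c) (hA.lt b c))
      (c3_lt (hA.lt a d) (hA.lt b d) (hA.lt c d))
      (c3_lt (hA.lt a e) (hA.lt b e) (hA.lt c e))
  simp only [e2, sum_add_distrib]
  have p := psd K (fun _ => 1)
    (fun k e => (l (c3 (A a b) (A a c) (A b c)) (c3 (A a e) (A b e) (A c e)) k : ℤ) - B)
  simp only [Nat.cast_one] at p
  linarith

theorem lower1 (hA : Og A) (K : ℕ) (q1 : ℕ → ℕ → ℕ) (l : ℕ → ℕ → ℕ) (B O1 : ℤ)
    (hq1 : ∀ i j, i < 27 → j < 27 → (q1 i j : ℤ) =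
      ∑ k ∈ range K, (1 : ℤ) * ((l i k : ℤ) - B) * ((l j k : ℤ) - B) + O1) :
    O1 * (Fintype.card V : ℤ) ^ 5
      ≤ ∑ x : Fin 5 → V, (F1 A q1 (x 0) (x 1) (x 2) (x 3) (x 4) : ℤ) := by
  rw [conv5 (fun a b c d e => (F1 A q1 a b c d e : ℤ))]
  have e1 : O1 * (Fintype.card V : ℤ) ^ 5
      = ∑ a : V, ∑ b : V, ∑ c : V, ∑ d : V, ∑ e : V, O1 := by
    simp only [sum_const, card_univ, nsmul_eq_mul]
    ring
  rw [e1]
  refine sum_le_sum fun a _ => ?_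
  have e2 : ∀ b c d e : V, (F1 A q1 a b c d e : ℤ) = _ := fun b c d e =>
    hq1 _ _ (c3_lt (hA.lt a b) (hA.lt a c) (hA.lt b c))
      (c3_lt (hA.lt a d) (hA.lt a e) (hA.lt d e))
  simp only [e2, sum_add_distrib]
  have p := psd (ι := V × V) K (fun _ => 1)
    (fun k q => (l (c3 (A a q.1) (A a q.2) (A q.1 q.2)) k : ℤ) - B)
  simp only [Fintype.sum_prod_type, Nat.cast_one] at p
  linarith

theorem sumL3 (q3 : ℕ → ℕ → ℕ → ℕ) :
    ∑ x : Fin 5 → V, (L3 A q3 (x 0) (x 1) (x 2) (x 3) (x 4) : ℤ)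
      = 10 * ∑ x : Fin 5 → V, (F3 A q3 (x 0) (x 1) (x 2) (x 3) (x 4) : ℤ) := by
  have f : ∀ i0 i1 i2 i3 i4 : Fin 5, Function.Injective ![i0, i1, i2, i3, i4] →
      ∑ x : Fin 5 → V, (F3 A q3 (x i0) (x i1) (x i2) (x i3) (x i4) : ℤ)
      = ∑ x : Fin 5 → V, (F3 A q3 (x 0) (x 1) (x 2) (x 3) (x 4) : ℤ) :=
    fun i0 i1 i2 i3 i4 hg =>
      psum5 (fun a b c d e => (F3 A q3 a b c d e : ℤ)) ![i0, i1, i2, i3, i4]
        (Finite.injective_iff_bijective.mp hg)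
  simp only [L3, Nat.cast_add, sum_add_distrib]
  rw [f 0 1 3 2 4 (by decide), f 0 1 4 2 3 (by decide), f 0 2 3 1 4 (by decide), f 0 2 4 1 3 (by decide), f 0 3 4 1 2 (by decide), f 1 2 3 0 4 (by decide), f 1 2 4 0 3 (by decide), f 1 3 4 0 2 (by decide), f 2 3 4 0 1 (by decide)]
  ring

theorem sumL1 (q1 : ℕ → ℕ → ℕ) :
    ∑ x : Fin 5 → V, (L1 A q1 (x 0) (x 1) (x 2) (x 3) (x 4) : ℤ)
      = 15 * ∑ x : Fin 5 → V, (F1 A q1 (x 0) (x 1) (x 2) (x 3) (x 4) : ℤ) := by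
  have f : ∀ i0 i1 i2 i3 i4 : Fin 5, Function.Injective ![i0, i1, i2, i3, i4] →
      ∑ x : Fin 5 → V, (F1 A q1 (x i0) (x i1) (x i2) (x i3) (x i4) : ℤ)
      = ∑ x : Fin 5 → V, (F1 A q1 (x 0) (x 1) (x 2) (x 3) (x 4) : ℤ) :=
    fun i0 i1 i2 i3 i4 hg =>
      psum5 (fun a b c d e => (F1 A q1 a b c d e : ℤ)) ![i0, i1, i2, i3, i4]
        (Finite.injective_iff_bijective.mp hg)
  simp only [L1, Nat.cast_add, sum_add_distrib]
  rw [f 0 1 3 2 4 (by decide), f 0 1 4 2 3 (by decide), f 1 0 2 3 4 (by decide), f 1 0 3 2 4 (by decide), f 1 0 4 2 3 (by decide), f 2 0 1 3 4 (by decide), f 2 0 3 1 4 (by decide), f 2 0 4 1 3 (by decide), f 3 0 1 2 4 (by decide), f 3 0 2 1 4 (by decide), f 3 0 4 1 2 (by decide), f 4 0 1 2 3 (by decide), f 4 0 2 1 3 (by decide), f 4 0 3 1 2 (by decide)]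
  ring

theorem bound5 (hA : Og A) (K K1 C : ℕ) (q3 : ℕ → ℕ → ℕ → ℕ) (l : ℕ → ℕ → ℕ → ℕ)
    (q1 : ℕ → ℕ → ℕ) (l1 : ℕ → ℕ → ℕ) (B O3 O1 T : ℤ)
    (hq3 : ∀ c i j, c < 27 → i < 27 → j < 27 → (q3 c i j : ℤ) =
      ∑ k ∈ range K, (1 : ℤ) * ((l c i k : ℤ) - B) * ((l c j k : ℤ) - B) + (O3 + T * (hb c : ℤ)))
    (hq1 : ∀ i j, i < 27 → j < 27 → (q1 i j : ℤ) =
      ∑ k ∈ range K1, (1 : ℤ) * ((l1 i k : ℤ) - B) * ((l1 j k : ℤ) - B) + O1)
    (hleaf : ∀ a b c d e : V, L3 A q3 a b c d e + L1 A q1 a b c d e ≤ C) :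
    10 * (T * (Fintype.card V : ℤ) ^ 2 * Sh A) + (10 * O3 + 15 * O1) * (Fintype.card V : ℤ) ^ 5
      ≤ C * (Fintype.card V : ℤ) ^ 5 := by
  have A3 := lower3 A hA K q3 l B O3 T hq3
  have A1 := lower1 A hA K1 q1 l1 B O1 hq1
  have key : ∑ x : Fin 5 → V, ((L3 A q3 (x 0) (x 1) (x 2) (x 3) (x 4) : ℤ)
      + (L1 A q1 (x 0) (x 1) (x 2) (x 3) (x 4) : ℤ)) ≤ C * (Fintype.card V : ℤ) ^ 5 := by
    calc _ ≤ ∑ x : Fin 5 → V, (C : ℤ) :=
          sum_le_sum fun x _ => by exact_mod_cast hleaf (x 0) (x 1) (x 2) (x 3) (x 4)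
      _ = C * (Fintype.card V : ℤ) ^ 5 := by
          rw [sum_const, card_univ, Fintype.card_fun, Fintype.card_fin, nsmul_eq_mul]
          push_cast
          ring
  rw [sum_add_distrib, sumL3 A q3, sumL1 A q1] at key
  linarith

end
end Pool.Agent.H37R3.Fdf
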