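import Pool.Agent.H37R3.Fdf.Defs

set_option autoImplicit false
set_option maxRecDepth 100000

namespace Pool.Agent.H37R3.Fdf

theorem c4_dec {x y z u v w : ℕ} (hx : x < 3) (hy : y < 3) (hz : z < 3) (hu : u < 3) (hv : v < 3)
    (hw : w < 3) (h : c4b x y z u v w = true) :
      (x = 0 ∧ y = 1 ∧ z = 2 ∧ u = 2 ∧ v = 1 ∧ w = 0) ∨
      (x = 0 ∧ y = 2 ∧ z = 1 ∧ u = 1 ∧ v = 2 ∧ w = 0) ∨
      (x = 1 ∧ y = 0 ∧ z = 1 ∧ u = 2 ∧ v = 0 ∧ w = 1) ∨
      (x = 2 ∧ y = 1 ∧ z = 0 ∧ u = 0 ∧ v = 2 ∧ w = 1) ∨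
      (x = 2 ∧ y = 0 ∧ z = 2 ∧ u = 1 ∧ v = 0 ∧ w = 2) ∨
      (x = 1 ∧ y = 2 ∧ z = 0 ∧ u = 0 ∧ v = 1 ∧ w = 2) := by
  have h' : (Nat.beq (c6 x y z u v w) 156 || (Nat.beq (c6 x y z u v w) 204 ||
      (Nat.beq (c6 x y z u v w) 307 || (Nat.beq (c6 x y z u v w) 410 ||
      (Nat.beq (c6 x y z u v w) 533 || Nat.beq (c6 x y z u v w) 574))))) = true := h
  have key : ∀ m, Nat.beq (c6 x y z u v w) m = true →
      x + (3 * y + (9 * z + (27 * u + (81 * v + 243 * w)))) = m :=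
    fun m hm => Nat.eq_of_beq_eq_true hm
  simp only [Bool.or_eq_true] at h'
  rcases h' with h' | h' | h' | h' | h' | h'
  · have e := key _ h'
    exact Or.inl ⟨by omega, by omega, by omega, by omega, by omega, by omega⟩
  · have e := key _ h'
    exact Or.inr (Or.inl ⟨by omega, by omega, by omega, by omega, by omega, by omega⟩)
  · have e := key _ h'
    exact Or.inr (Or.inr (Or.inl ⟨by omega, by omega, by omega, by omega, by omega, by omega⟩))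
  · have e := key _ h'
    exact Or.inr (Or.inr (Or.inr (Or.inl ⟨by omega, by omega, by omega, by omega, by omega, by omega⟩)))
  · have e := key _ h'
    exact Or.inr (Or.inr (Or.inr (Or.inr (Or.inl ⟨by omega, by omega, by omega, by omega, by omega, by omega⟩))))
  · have e := key _ h'
    exact Or.inr (Or.inr (Or.inr (Or.inr (Or.inr (⟨by omega, by omega, by omega, by omega, by omega, by omega⟩)))))

theorem hb_dec : ∀ x y z : Fin 3, hb (c3 x y z) = 0 →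
    (x = 0 ∧ y = 0) ∨ (x = 0 ∧ z = 0) ∨ (y = 0 ∧ z = 0) ∨ (x = 1 ∧ y = 1) ∨ (x = 2 ∧ z = 1) ∨
      (y = 2 ∧ z = 2) := by
  decide +kernel

theorem hb_bt : ∀ x y z : Fin 3, hb (c3 x y z) = 0 ∨ hb (c3 x y z) = 1 := by
  decide +kernel

end Pool.Agent.H37R3.Fdf
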