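import Mathlib

/-! Five-vertex flags for oriented graphs: codes and the leaf functional. -/

set_option autoImplicit false
set_option maxRecDepth 100000

namespace Pool.Agent.H37R3.Fdf

/-- reversal of the code of a pair -/
def sw (x : ℕ) : ℕ := Nat.mod (Nat.mul 2 x) 3
def c3 (x y z : ℕ) : ℕ := Nat.add x (Nat.add (Nat.mul 3 y) (Nat.mul 9 z))
def c6 (x y z u v w : ℕ) : ℕ := Nat.add x (Nat.add (Nat.mul 3 y) (Nat.add (Nat.mul 9 z)
  (Nat.add (Nat.mul 27 u) (Nat.add (Nat.mul 81 v) (Nat.mul 243 w)))))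
def B3 (f : ℕ → Bool) : Bool := and (f 0) (and (f 1) (f 2))

/-- the codes of the labelled directed 4-cycles -/
def c4b (x y z u v w : ℕ) : Bool :=
  or (Nat.beq (c6 x y z u v w) 156) (or (Nat.beq (c6 x y z u v w) 204) (or (Nat.beq (c6 x y z u v w) 307)
  (or (Nat.beq (c6 x y z u v w) 410) (or (Nat.beq (c6 x y z u v w) 533) (Nat.beq (c6 x y z u v w) 574)))))

/-- the pairs of three vertices: no isolated vertex and no vertex of out-degree two -/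
def hb (c : ℕ) : ℕ := Nat.mod (Nat.shiftRight 12162464 c) 2

def leaf3 (q3 : ℕ → ℕ → ℕ → ℕ) (ab ac bc ad bd cd ae be ce de : ℕ) : ℕ :=
  (Nat.add (q3 (c3 ab ac bc) (c3 ad bd cd) (c3 ae be ce))
    (Nat.add (q3 (c3 ab ad bd) (c3 ac bc (sw cd)) (c3 ae be de))
    (Nat.add (q3 (c3 ab ae be) (c3 ac bc (sw ce)) (c3 ad bd (sw de)))
    (Nat.add (q3 (c3 ac ad cd) (c3 ab (sw bc) (sw bd)) (c3 ae ce de))
    (Nat.add (q3 (c3 ac ae ce) (c3 ab (sw bc) (sw be)) (c3 ad cd (sw de)))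
    (Nat.add (q3 (c3 ad ae de) (c3 ab (sw bd) (sw be)) (c3 ac (sw cd) (sw ce)))
    (Nat.add (q3 (c3 bc bd cd) (c3 (sw ab) (sw ac) (sw ad)) (c3 be ce de))
    (Nat.add (q3 (c3 bc be ce) (c3 (sw ab) (sw ac) (sw ae)) (c3 bd cd (sw de)))
    (Nat.add (q3 (c3 bd be de) (c3 (sw ab) (sw ad) (sw ae)) (c3 bc (sw cd) (sw ce)))
    (q3 (c3 cd ce de) (c3 (sw ac) (sw ad) (sw ae)) (c3 (sw bc) (sw bd) (sw be))))))))))))

def leaf1 (q1 : ℕ → ℕ → ℕ) (ab ac bc ad bd cd ae be ce de : ℕ) : ℕ :=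
  (Nat.add (q1 (c3 ab ac bc) (c3 ad ae de))
    (Nat.add (q1 (c3 ab ad bd) (c3 ac ae ce))
    (Nat.add (q1 (c3 ab ae be) (c3 ac ad cd))
    (Nat.add (q1 (c3 (sw ab) bc ac) (c3 bd be de))
    (Nat.add (q1 (c3 (sw ab) bd ad) (c3 bc be ce))
    (Nat.add (q1 (c3 (sw ab) be ae) (c3 bc bd cd))
    (Nat.add (q1 (c3 (sw ac) (sw bc) ab) (c3 cd ce de))
    (Nat.add (q1 (c3 (sw ac) cd ad) (c3 (sw bc) ce be))
    (Nat.add (q1 (c3 (sw ac) ce ae) (c3 (sw bc) cd bd))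
    (Nat.add (q1 (c3 (sw ad) (sw bd) ab) (c3 (sw cd) de ce))
    (Nat.add (q1 (c3 (sw ad) (sw cd) ac) (c3 (sw bd) de be))
    (Nat.add (q1 (c3 (sw ad) de ae) (c3 (sw bd) (sw cd) bc))
    (Nat.add (q1 (c3 (sw ae) (sw be) ab) (c3 (sw ce) (sw de) cd))
    (Nat.add (q1 (c3 (sw ae) (sw ce) ac) (c3 (sw be) (sw de) bd))
    (q1 (c3 (sw ae) (sw de) ad) (c3 (sw be) (sw ce) bc))))))))))))))))

section
variable {V : Type} (A : V → V → ℕ)

def F3 (q3 : ℕ → ℕ → ℕ → ℕ) (a b c d e : V) : ℕ :=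
  q3 (c3 (A a b) (A a c) (A b c)) (c3 (A a d) (A b d) (A c d)) (c3 (A a e) (A b e) (A c e))

def F1 (q1 : ℕ → ℕ → ℕ) (a b c d e : V) : ℕ :=
  q1 (c3 (A a b) (A a c) (A b c)) (c3 (A a d) (A a e) (A d e))

def L3 (q3 : ℕ → ℕ → ℕ → ℕ) (a b c d e : V) : ℕ :=
  (F3 A q3 a b c d e +
    (F3 A q3 a b d c e +
    (F3 A q3 a b e c d +
    (F3 A q3 a c d b e +
    (F3 A q3 a c e b d +
    (F3 A q3 a d e b c +
    (F3 A q3 b c d a e +
    (F3 A q3 b c e a d +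
    (F3 A q3 b d e a c +
    F3 A q3 c d e a b)))))))))

def L1 (q1 : ℕ → ℕ → ℕ) (a b c d e : V) : ℕ :=
  (F1 A q1 a b c d e +
    (F1 A q1 a b d c e +
    (F1 A q1 a b e c d +
    (F1 A q1 b a c d e +
    (F1 A q1 b a d c e +
    (F1 A q1 b a e c d +
    (F1 A q1 c a b d e +
    (F1 A q1 c a d b e +
    (F1 A q1 c a e b d +
    (F1 A q1 d a b c e +
    (F1 A q1 d a c b e +
    (F1 A q1 d a e b c +
    (F1 A q1 e a b c d +
    (F1 A q1 e a c b d +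
    F1 A q1 e a d b c))))))))))))))

end

/-- the leaf inequality for all structures which extend a given one -/
def chk (q3 : ℕ → ℕ → ℕ → ℕ) (q1 : ℕ → ℕ → ℕ) (C : ℕ) (ab ac : ℕ) : Bool :=
  B3 fun bc => B3 fun ad => B3 fun bd => B3 fun cd => or (c4b ab ac bc ad bd cd) (B3 fun ae => B3 fun be => B3 fun ce => or (c4b ab ac bc ae be ce) (B3 fun de => or (c4b ab ad bd ae be de) (or (c4b ac ad cd ae ce de) (or (c4b bc bd cd be ce de) (Nat.ble (Nat.add (leaf3 q3 ab ac bc ad bd cd ae be ce de) (leaf1 q1 ab ac bc ad bd cd ae be ce de)) C)))))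

end Pool.Agent.H37R3.Fdf
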