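import Pool.Agent.H37R3.Fdf.Tab

set_option autoImplicit false
set_option maxRecDepth 100000

namespace Pool.Agent.H37R3.Fdf

theorem part20 : chk q3 q1 CST 2 0 = true := by decide +kernel
theorem part21 : chk q3 q1 CST 2 1 = true := by decide +kernel
theorem part22 : chk q3 q1 CST 2 2 = true := by decide +kernel

end Pool.Agent.H37R3.Fdf
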