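import Pool.Agent.H37R3.Fdf.Part0
import Pool.Agent.H37R3.Fdf.Part1
import Pool.Agent.H37R3.Fdf.Part2
import Pool.Agent.H37R3.Fdf.Psd
import Pool.Agent.H37R3.Fdf.Bound

set_option autoImplicit false
set_option maxRecDepth 100000
set_option maxHeartbeats 4000000
open Finset

namespace Pool.Agent.H37R3.Fdf
open Pool.Agent.H122R2.N6 (psd nsum nall nsum_eq nall_true or_false_left)

theorem hc (x y : ℕ) (hx : x < 3) (hy : y < 3) : chk q3 q1 CST x y = true := by
  interval_cases x <;> interval_cases y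
  exacts [part00, part01, part02, part10, part11, part12, part20, part21, part22]

theorem expand (s : Finset ℕ) (u v : ℕ → ℕ) (B : ℤ) :
    ∑ k ∈ s, (1 : ℤ) * ((u k : ℤ) - B) * ((v k : ℤ) - B) =
      ∑ k ∈ s, (u k : ℤ) * (v k : ℤ) + (s.card : ℤ) * B ^ 2
        - B * (∑ k ∈ s, (u k : ℤ) + ∑ k ∈ s, (v k : ℤ)) := by
  have : ∀ k, (1 : ℤ) * ((u k : ℤ) - B) * ((v k : ℤ) - B) =
      (u k : ℤ) * (v k : ℤ) + B ^ 2 - (B * (u k : ℤ) + B * (v k : ℤ)) := fun k => by ring
  simp only [this, sum_sub_distrib, sum_add_distrib, sum_const, nsmul_eq_mul, ← mul_sum]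
  ring

theorem hq3 (c i j : ℕ) (hc : c < 27) (hi : i < 27) (hj : j < 27) : (q3 c i j : ℤ) =
    ∑ k ∈ range 27, (1 : ℤ) * ((lv c i k : ℤ) - 268435456) * ((lv c j k : ℤ) - 268435456) +
      (288230376151711744 + 18014398509481200 * (hb c : ℤ)) := by
  have h := Nat.eq_of_beq_eq_true (nall_true (nall_true (nall_true chk3_true c hc) i hi) j hj)
  unfold ll sl at h
  rw [nsum_eq, nsum_eq, nsum_eq] at h
  have h2 := congrArg (fun n : ℕ => (n : ℤ)) h
  simp only [Nat.add_eq, Nat.mul_eq] at h2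
  push_cast at h2
  rw [expand (range 27) (fun k => lv c i k) (fun k => lv c j k) 268435456, card_range]
  push_cast
  linarith

theorem hq1 (i j : ℕ) (hi : i < 27) (hj : j < 27) : (q1 i j : ℤ) =
    ∑ k ∈ range 15, (1 : ℤ) * ((mv i k : ℤ) - 268435456) * ((mv j k : ℤ) - 268435456) + 288230376151711744 := by
  have h := Nat.eq_of_beq_eq_true (nall_true (nall_true chk1_true i hi) j hj)
  unfold ll1 sl1 at h
  rw [nsum_eq, nsum_eq, nsum_eq] at h
  have h2 := congrArg (fun n : ℕ => (n : ℤ)) h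
  simp only [Nat.add_eq, Nat.mul_eq] at h2
  push_cast at h2
  rw [expand (range 15) (fun k => mv i k) (fun k => mv j k) 268435456, card_range]
  push_cast
  linarith

/-- the density of the counted triples in an oriented graph without induced directed 4-cycles -/
theorem main {V : Type} [Fintype V] {A : V → V → ℕ} (hA : Og A) (hC : NoC4 A)
    (hn : 0 < Fintype.card V) : 4000 * Sh A ≤ 2223 * (Fintype.card V : ℤ) ^ 3 := by
  have hb := bound5 A hA 27 15 CST q3 lv q1 mv 268435456 288230376151711744 288230376151711744 18014398509481200 hq3 hq1 (leaf_all hA hC hc)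
  have hCST : (CST : ℤ) = 7305874423509235369 := rfl
  rw [hCST] at hb
  have hV : (0 : ℤ) < (Fintype.card V : ℤ) ^ 2 := by
    have : (0 : ℤ) < (Fintype.card V : ℤ) := by exact_mod_cast hn
    positivity
  have h1 : (Fintype.card V : ℤ) ^ 2 * (4000 * Sh A) ≤
      (Fintype.card V : ℤ) ^ 2 * (2223 * (Fintype.card V : ℤ) ^ 3) := by
    have h5 : (Fintype.card V : ℤ) ^ 5 = (Fintype.card V : ℤ) ^ 2 * (Fintype.card V : ℤ) ^ 3 := by
      ring
    rw [h5] at hb
    linarith
  exact le_of_mul_le_mul_left h1 hV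

end Pool.Agent.H37R3.Fdf
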